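import Pool.Agent.REV.StmtsA2

set_option autoImplicit false

namespace Pool.Agent.REV.H80

open Set MeasureTheory

/-- FAC: the bound of the normalising factor. -/
theorem fac (hINT : IntStmt) (hYLO : YloStmt) : FacStmt := by
  intro n i C1 C2 κ η hn hi hin hC1 hC2 hκ hη
  obtain ⟨t0, ht0, ht0', hY⟩ := hYLO n κ η hn hκ hη
  have hn' : (4 : ℝ) ≤ n := by exact_mod_cast hn
  have hexp : (0 : ℝ) ≤ ((n : ℝ) - 3) / 2 := by linarith
  have hδ : 0 < t0 * ((3 / 4 : ℝ) ^ (((n : ℝ) - 3) / 2) * (C1 * (η / 2) ^ i)) := by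
    have h1 : (0 : ℝ) < (3 / 4 : ℝ) ^ (((n : ℝ) - 3) / 2) := Real.rpow_pos_of_pos (by norm_num) _
    have h2 : 0 < (η / 2) ^ i := pow_pos (by linarith) _
    positivity
  refine ⟨κ / (t0 * ((3 / 4 : ℝ) ^ (((n : ℝ) - 3) / 2) * (C1 * (η / 2) ^ i))), div_pos hκ hδ, ?_⟩
  intro s f f' hs hf hf' hff
  rw [le_div_iff₀ hδ]
  have hint := (hINT n f' hn hf'.adm).1
  have ht01 : t0 ≤ 1 := by linarith
  -- pointwise lower bound
  have hpt : ∀ t ∈ Icc (0 : ℝ) t0,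
      (3 / 4 : ℝ) ^ (((n : ℝ) - 3) / 2) * (s * (C1 * (η / 2) ^ i)) ≤
        (1 - t ^ 2) ^ (((n : ℝ) - 3) / 2) * f' t := by
    intro t ht
    have ht1 : t ≤ 1 := ht.2.trans ht01
    have hth : t ≤ 1 / 2 := ht.2.trans ht0'
    have htt : t ^ 2 ≤ 1 / 4 := by
      have := ht.1
      nlinarith
    have hw : (3 / 4 : ℝ) ^ (((n : ℝ) - 3) / 2) ≤ (1 - t ^ 2) ^ (((n : ℝ) - 3) / 2) :=
      Real.rpow_le_rpow (by norm_num) (by linarith) hexp
    have hc0 : 0 ≤ Real.sqrt (1 - t ^ 2) := Real.sqrt_nonneg _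
    have hc1 : Real.sqrt (1 - t ^ 2) ≤ 1 := by
      rw [Real.sqrt_le_one]
      nlinarith [sq_nonneg t]
    obtain ⟨-, -, hRA, hRB⟩ := (hINT n f hn hf.adm).2 _ hc0 hc1
    have hlow := hY f hf t ht.1 ht.2
    have hpow : (η / 2) ^ i ≤ RA n f (Real.sqrt (1 - t ^ 2)) ^ i :=
      pow_le_pow_left₀ (by linarith) hlow i
    have hTT : C1 * (η / 2) ^ i ≤ TT n i C1 C2 f t := by
      unfold TT
      have h1 : C1 * (η / 2) ^ i ≤ C1 * RA n f (Real.sqrt (1 - t ^ 2)) ^ i :=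
        mul_le_mul_of_nonneg_left hpow hC1.le
      have h2 : 0 ≤ C2 * (RB n f (Real.sqrt (1 - t ^ 2)) *
          RA n f (Real.sqrt (1 - t ^ 2)) ^ (i - 1)) :=
        mul_nonneg hC2 (mul_nonneg hRB (pow_nonneg hRA _))
      linarith
    have hf't : s * (C1 * (η / 2) ^ i) ≤ f' t := by
      rw [hff t ⟨ht.1, ht1⟩]
      exact mul_le_mul_of_nonneg_left hTT hs
    have hK : 0 ≤ s * (C1 * (η / 2) ^ i) := by
      have : 0 ≤ (η / 2) ^ i := pow_nonneg (by linarith) _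
      positivity
    have hw0 : (0 : ℝ) ≤ (1 - t ^ 2) ^ (((n : ℝ) - 3) / 2) :=
      Real.rpow_nonneg (by linarith) _
    exact mul_le_mul hw hf't hK hw0
  -- split of the integral
  have hI1 : IntervalIntegrable (fun x : ℝ => (1 - x ^ 2) ^ (((n : ℝ) - 3) / 2) * f' x)
      volume 0 t0 := by
    refine hint.mono_set ?_
    rw [uIcc_of_le ht0.le, uIcc_of_le zero_le_one]
    exact Icc_subset_Icc_right ht01
  have hI2 : IntervalIntegrable (fun x : ℝ => (1 - x ^ 2) ^ (((n : ℝ) - 3) / 2) * f' x)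
      volume t0 1 := by
    refine hint.mono_set ?_
    rw [uIcc_of_le ht01, uIcc_of_le zero_le_one]
    exact Icc_subset_Icc_left ht0.le
  have hsplit := intervalIntegral.integral_add_adjacent_intervals hI1 hI2
  have hpos : 0 ≤ ∫ x in t0..1, (1 - x ^ 2) ^ (((n : ℝ) - 3) / 2) * f' x := by
    apply intervalIntegral.integral_nonneg ht01
    intro x hx
    have hx0 : 0 ≤ x := ht0.le.trans hx.1
    refine mul_nonneg (Real.rpow_nonneg ?_ _) (hf'.adm.nonneg x ⟨hx0, hx.2⟩)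
    have := hx.2
    nlinarith
  have hlow2 : t0 * ((3 / 4 : ℝ) ^ (((n : ℝ) - 3) / 2) * (s * (C1 * (η / 2) ^ i))) ≤
      ∫ x in (0 : ℝ)..t0, (1 - x ^ 2) ^ (((n : ℝ) - 3) / 2) * f' x := by
    have h := intervalIntegral.integral_mono_on (a := 0) (b := t0) (μ := volume) ht0.le
      (intervalIntegrable_const (c := (3 / 4 : ℝ) ^ (((n : ℝ) - 3) / 2) *
        (s * (C1 * (η / 2) ^ i)))) hI1 hpt
    rw [intervalIntegral.integral_const, sub_zero, smul_eq_mul] at h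
    exact h
  have hmass := hf'.mass
  calc s * (t0 * ((3 / 4 : ℝ) ^ (((n : ℝ) - 3) / 2) * (C1 * (η / 2) ^ i)))
      = t0 * ((3 / 4 : ℝ) ^ (((n : ℝ) - 3) / 2) * (s * (C1 * (η / 2) ^ i))) := by ring
    _ ≤ κ := by linarith

end Pool.Agent.REV.H80
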