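import Pool.Agent.REV.StmtsV

set_option autoImplicit false

namespace Pool.Agent.REV.H80

open Set MeasureTheory Filter
open scoped Topology

/-- VTA: the tail. -/
theorem vta (hVDR : VdrStmt) (hVLM : VlmStmt) (hVNE : VneStmt) : VtaStmt := by
  intro n C σ f f' hn hC hσ hf hf' hst B hB
  have hn' : (4 : ℝ) ≤ n := by exact_mod_cast hn
  have hm : (0 : ℝ) ≤ ((n : ℝ) - 2) / 2 := by linarith
  obtain ⟨hD, -, hcd⟩ := hVDR n f hn hf
  obtain ⟨-, -, hR0, hyR, -, -, hint0, -, htail⟩ := hVLM n f hn hf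
  have hb : 0 < 2 / B := by positivity
  obtain ⟨hI, hE, -, -⟩ := (hVNE n C σ f f' hn hC.le hσ.le hf hf' hst).1 (2 / B) hb
  have e1 : 1 / (2 / B) = B / 2 := one_div_div 2 B
  rw [e1] at hI hE
  have hc3 : 0 < c3 n C := by
    unfold c3
    apply div_pos hC
    apply mul_pos <;> linarith
  have hσc : 0 < σ * c3 n C := mul_pos hσ hc3
  set m : ℝ := ((n : ℝ) - 2) / 2 with hmdef
  have h43 : (0 : ℝ) < (4 / 3 : ℝ) ^ m := Real.rpow_pos_of_pos (by norm_num) _
  have hdp : ∀ β : ℝ, 0 < β → 0 ≤ dph n f β := fun β hβ => (hD β hβ).2.2.2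
  -- the integrand of `VNE` is nonnegative
  have hnn : ∀ β ∈ Ioi (B / 2), 0 ≤ wb (2 / B) β ^ m * (β * dph n f β) := by
    intro β hβ
    have hβ1 : B / 2 < β := hβ
    have hβ0 : 0 < β := by linarith
    apply mul_nonneg _ (mul_nonneg hβ0.le (hdp β hβ0))
    apply Real.rpow_nonneg
    unfold wb
    have h1 : 1 ≤ 2 / B * β := by
      rw [div_mul_eq_mul_div, le_div_iff₀ hB]
      linarith
    have h2 : ((2 / B * β) ^ 2)⁻¹ ≤ 1 := by
      apply inv_le_one_of_one_le₀
      nlinarith
    linarith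
  have hcmp : ∀ β ∈ Ioi B, β * dph n f β ≤
      (4 / 3 : ℝ) ^ m * (wb (2 / B) β ^ m * (β * dph n f β)) := by
    intro β hβ
    have hβ1 : B < β := hβ
    have hβ0 : 0 < β := by linarith
    have h0 : 0 ≤ β * dph n f β := mul_nonneg hβ0.le (hdp β hβ0)
    have h1 : 2 ≤ 2 / B * β := by
      rw [div_mul_eq_mul_div, le_div_iff₀ hB]
      linarith
    have h2 : ((2 / B * β) ^ 2)⁻¹ ≤ 1 / 4 := by
      rw [inv_le_comm₀ (by positivity) (by norm_num)]
      norm_num
      nlinarith
    have h3 : 3 / 4 ≤ wb (2 / B) β := by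
      unfold wb
      linarith
    have h4 : (3 / 4 : ℝ) ^ m ≤ wb (2 / B) β ^ m := Real.rpow_le_rpow (by norm_num) h3 hm
    have h5 : (4 / 3 : ℝ) ^ m * (3 / 4 : ℝ) ^ m = 1 := by
      rw [← Real.mul_rpow (by norm_num) (by norm_num)]
      norm_num
    have h6 : 1 ≤ (4 / 3 : ℝ) ^ m * wb (2 / B) β ^ m := by
      rw [← h5]
      exact mul_le_mul_of_nonneg_left h4 h43.le
    calc β * dph n f β = 1 * (β * dph n f β) := (one_mul _).symm
      _ ≤ ((4 / 3 : ℝ) ^ m * wb (2 / B) β ^ m) * (β * dph n f β) :=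
          mul_le_mul_of_nonneg_right h6 h0
      _ = _ := by ring
  have hsub : Ioi B ⊆ Ioi (B / 2) := Ioi_subset_Ioi (by linarith)
  have hIB : IntegrableOn (fun β : ℝ => (4 / 3 : ℝ) ^ m *
      (wb (2 / B) β ^ m * (β * dph n f β))) (Ioi B) := (hI.mono_set hsub).const_mul _
  have hcB : ContinuousOn (fun β : ℝ => β * dph n f β) (Ioi B) := by
    apply ContinuousOn.mul continuousOn_id
    exact hcd.mono (Ioi_subset_Ioi hB.le)
  have h1 : IntegrableOn (fun β : ℝ => β * dph n f β) (Ioi B) := by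
    refine Integrable.mono' hIB (hcB.aestronglyMeasurable measurableSet_Ioi) ?_
    filter_upwards [ae_restrict_mem measurableSet_Ioi] with β hβ
    have hβ1 : B < β := hβ
    have hβ0 : 0 < β := by linarith
    rw [Real.norm_eq_abs, abs_of_nonneg (mul_nonneg hβ0.le (hdp β hβ0))]
    exact hcmp β hβ
  have h2 : σ * c3 n C * ∫ β in Ioi B, β * dph n f β ≤ (4 / 3 : ℝ) ^ m * yb n f' (2 / B) := by
    have h3 : ∫ β in Ioi B, β * dph n f β ≤
        ∫ β in Ioi B, (4 / 3 : ℝ) ^ m * (wb (2 / B) β ^ m * (β * dph n f β)) :=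
      setIntegral_mono_on h1 hIB measurableSet_Ioi hcmp
    rw [integral_const_mul] at h3
    have h4 : ∫ β in Ioi B, wb (2 / B) β ^ m * (β * dph n f β) ≤
        ∫ β in Ioi (B / 2), wb (2 / B) β ^ m * (β * dph n f β) := by
      apply setIntegral_mono_set hI
      · filter_upwards [ae_restrict_mem measurableSet_Ioi] with β hβ
        exact hnn β hβ
      · exact hsub.eventuallyLE
    rw [hE]
    calc σ * c3 n C * ∫ β in Ioi B, β * dph n f β
        ≤ σ * c3 n C * ((4 / 3 : ℝ) ^ m * ∫ β in Ioi (B / 2), wb (2 / B) β ^ m *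
          (β * dph n f β)) := by
          apply mul_le_mul_of_nonneg_left _ hσc.le
          exact h3.trans (mul_le_mul_of_nonneg_left h4 h43.le)
      _ = _ := by ring
  -- the second function
  set R : ℝ := RA n f 1 with hR
  have hg0 : ∀ s : ℝ, 0 ≤ s → 0 ≤ R ^ (n - 1) - ph n f s := by
    intro s hs
    obtain ⟨h3, h4⟩ := hyR s hs
    unfold ph
    have := pow_le_pow_left₀ h3 h4 (n - 1)
    linarith
  have hgcont : ContinuousOn (fun s : ℝ => R ^ (n - 1) - ph n f s) (Ioi 0) := by
    intro s hs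
    exact ((hD s hs).2.1.continuousAt.continuousWithinAt).const_sub _
  have hbound : ∀ T : ℝ, B ≤ T → ∫ s in B..T, (R ^ (n - 1) - ph n f s) ≤
      ∫ β in Ioi B, β * dph n f β := by
    intro T hT
    have hT0 : 0 < T := hB.trans_le hT
    have hpos : ∀ s ∈ uIcc B T, 0 < s := by
      intro s hs
      rw [uIcc_of_le hT] at hs
      exact hB.trans_le hs.1
    have hii1 : IntervalIntegrable (fun s : ℝ => R ^ (n - 1) - ph n f s) volume B T := by
      apply ContinuousOn.intervalIntegrable
      exact hgcont.mono fun s hs => hpos s hs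
    have hcd' : ContinuousOn (dph n f) (uIcc B T) := hcd.mono fun s hs => hpos s hs
    have hii2 : IntervalIntegrable (fun s : ℝ => (s - B) * dph n f s) volume B T := by
      apply ContinuousOn.intervalIntegrable
      exact (by fun_prop : ContinuousOn (fun s : ℝ => s - B) (uIcc B T)).mul hcd'
    have hii3 : IntervalIntegrable (fun s : ℝ => s * dph n f s) volume B T := by
      apply ContinuousOn.intervalIntegrable
      exact (by fun_prop : ContinuousOn (fun s : ℝ => s) (uIcc B T)).mul hcd'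
    have hFTC : ∫ s in B..T, ((R ^ (n - 1) - ph n f s) - (s - B) * dph n f s) =
        (T - B) * (R ^ (n - 1) - ph n f T) - (B - B) * (R ^ (n - 1) - ph n f B) := by
      apply intervalIntegral.integral_eq_sub_of_hasDerivAt
        (f := fun s => (s - B) * (R ^ (n - 1) - ph n f s))
      · intro s hs
        have h3 := (hD s (hpos s hs)).2.1
        have h4 := ((hasDerivAt_id s).sub_const B).mul (h3.const_sub (R ^ (n - 1)))
        have e2 : (R ^ (n - 1) - ph n f s) - (s - B) * dph n f s =
            1 * (R ^ (n - 1) - ph n f s) + (id s - B) * -dph n f s := by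
          simp only [id]
          ring
        rw [e2]
        exact h4
      · exact hii1.sub hii2
    rw [intervalIntegral.integral_sub hii1 hii2, sub_self, zero_mul, sub_zero] at hFTC
    have h5 : ∫ s in B..T, (s - B) * dph n f s ≤ ∫ s in B..T, s * dph n f s := by
      apply intervalIntegral.integral_mono_on hT hii2 hii3
      intro s hs
      have hs0 : 0 < s := hB.trans_le hs.1
      have := mul_nonneg hB.le (hdp s hs0)
      nlinarith
    have hIT : IntegrableOn (dph n f) (Ioi T) := hint0.mono_set (Ioi_subset_Ioi hT0.le)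
    have hIT2 : IntegrableOn (fun β : ℝ => β * dph n f β) (Ioi T) :=
      h1.mono_set (Ioi_subset_Ioi hT)
    have h6 : (T - B) * (R ^ (n - 1) - ph n f T) ≤ ∫ β in Ioi T, β * dph n f β := by
      rw [← htail T hT0.le, ← integral_const_mul]
      apply setIntegral_mono_on (hIT.const_mul _) hIT2 measurableSet_Ioi
      intro β hβ
      have hβ1 : T < β := hβ
      have hβ0 : 0 < β := hT0.trans hβ1
      exact mul_le_mul_of_nonneg_right (by linarith) (hdp β hβ0)
    have h7 : ∫ β in Ioi B, β * dph n f β =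
        (∫ s in B..T, s * dph n f s) + ∫ β in Ioi T, β * dph n f β := by
      rw [intervalIntegral.integral_of_le hT, ← setIntegral_union Ioc_disjoint_Ioi_same
        measurableSet_Ioi (h1.mono_set Ioc_subset_Ioi_self) hIT2, Ioc_union_Ioi_eq_Ioi hT]
    linarith
  have hIoc : ∀ T : ℝ, IntegrableOn (fun s : ℝ => R ^ (n - 1) - ph n f s) (Ioc B T) := by
    intro T
    have h3 : ContinuousOn (fun s : ℝ => R ^ (n - 1) - ph n f s) (Icc B T) :=
      hgcont.mono fun s hs => hB.trans_le hs.1
    exact (h3.integrableOn_Icc).mono_set Ioc_subset_Icc_self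
  have h3 : IntegrableOn (fun s : ℝ => R ^ (n - 1) - ph n f s) (Ioi B) := by
    apply integrableOn_Ioi_of_intervalIntegral_norm_bounded
      (∫ β in Ioi B, β * dph n f β) B (fun T => hIoc T) tendsto_id
    filter_upwards [eventually_ge_atTop B] with T hT
    refine le_trans (le_of_eq ?_) (hbound T hT)
    apply intervalIntegral.integral_congr
    intro s hs
    rw [uIcc_of_le hT] at hs
    simp only [id]
    rw [Real.norm_eq_abs, abs_of_nonneg (hg0 s (hB.le.trans hs.1))]
  refine ⟨h1, h2, h3, ?_⟩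
  have h4 : ∫ s in Ioi B, (R ^ (n - 1) - ph n f s) ≤ ∫ β in Ioi B, β * dph n f β := by
    have h5 := intervalIntegral_tendsto_integral_Ioi B h3 tendsto_id
    apply le_of_tendsto h5
    filter_upwards [eventually_ge_atTop B] with T hT
    exact hbound T hT
  exact (mul_le_mul_of_nonneg_left h4 hσc.le).trans h2

end Pool.Agent.REV.H80
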