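import Pool.Agent.REV.StmtsA1

set_option autoImplicit false

namespace Pool.Agent.REV.H80

open Set

/-- BND: bounds from `Pinch`. -/
theorem bnd : BndStmt := by
  intro n A f hA hf hP t ht
  obtain ⟨hL, hU⟩ := hP
  have h0 : (0 : ℝ) ∈ Icc (0 : ℝ) 1 := ⟨le_refl _, zero_le_one⟩
  have hN : (0 : ℝ) ≤ ((n : ℝ) + 1) / 2 := by positivity
  have ht0 : 0 ≤ t := ht.1
  have ht1 : t ≤ 1 := ht.2
  have htt : t ^ 2 ≤ 1 := by nlinarith
  have htt0 : 0 ≤ t ^ 2 := sq_nonneg t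
  have hft : 0 ≤ f t := hf t ht
  have h1A : (0 : ℝ) < 1 + A := by linarith
  constructor
  · have h := hL h0 ht ht0
    simp only [El] at h
    have e0 : (1 + ((1 + A) - 1) * (0 : ℝ) ^ 2) = 1 := by ring
    rw [e0, Real.one_rpow, one_mul] at h
    refine h.trans ?_
    refine mul_le_mul_of_nonneg_right ?_ hft
    apply Real.rpow_le_rpow
    · have : 0 ≤ A * t ^ 2 := mul_nonneg hA htt0
      nlinarith
    · nlinarith
    · exact hN
  · have h := hU h0 ht ht0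
    simp only [El] at h
    have e0 : (1 + (1 / (1 + A) - 1) * (0 : ℝ) ^ 2) = 1 := by ring
    rw [e0, Real.one_rpow, one_mul] at h
    have hb : (1 + A)⁻¹ ≤ 1 + (1 / (1 + A) - 1) * t ^ 2 := by
      have hb1 : (1 + A)⁻¹ ≤ 1 := inv_le_one_of_one_le₀ (by linarith)
      rw [one_div]
      nlinarith
    have hb0 : 0 ≤ (1 + A)⁻¹ := by positivity
    have hpow : (1 + A)⁻¹ ^ (((n : ℝ) + 1) / 2) ≤
        (1 + (1 / (1 + A) - 1) * t ^ 2) ^ (((n : ℝ) + 1) / 2) :=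
      Real.rpow_le_rpow hb0 hb hN
    have h2 : (1 + A)⁻¹ ^ (((n : ℝ) + 1) / 2) * f t ≤ f 0 :=
      (mul_le_mul_of_nonneg_right hpow hft).trans h
    rw [Real.inv_rpow h1A.le] at h2
    have hp : 0 < (1 + A) ^ (((n : ℝ) + 1) / 2) := Real.rpow_pos_of_pos h1A _
    have h3 := mul_le_mul_of_nonneg_left h2 hp.le
    rw [← mul_assoc, mul_inv_cancel₀ hp.ne', one_mul] at h3
    exact h3

end Pool.Agent.REV.H80
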