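import Pool.Agent.REV.StmtsG3

set_option autoImplicit false

namespace Pool.Agent.REV.H80

open Set MeasureTheory

/-- CPO: the constants. -/
theorem cpo : CpoStmt := by
  intro n i hn hi hin
  have hn' : (4 : ℝ) ≤ n := by exact_mod_cast hn
  have h2 : (0 : ℝ) < (n : ℝ) - 2 := by linarith
  refine ⟨?_, ?_, ?_, ?_⟩
  · intro h
    unfold C1
    have hd : 0 < (n - 2).descFactorial i := Nat.descFactorial_pos.2 (by omega)
    have hd' : (0 : ℝ) < ((n - 2).descFactorial i : ℝ) := by exact_mod_cast hd
    exact div_pos hd' (pow_pos h2 i)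
  · unfold C1
    exact div_nonneg (Nat.cast_nonneg _) (pow_nonneg h2.le i)
  · unfold C2
    have hd : 0 < (n - 2).descFactorial (i - 1) := Nat.descFactorial_pos.2 (by omega)
    have hd' : (0 : ℝ) < ((n - 2).descFactorial (i - 1) : ℝ) := by exact_mod_cast hd
    have hi' : (0 : ℝ) < (i : ℝ) := by exact_mod_cast hi
    exact div_pos (mul_pos hi' hd') (pow_pos h2 _)
  · unfold kap
    apply inv_pos.2
    have he : (0 : ℝ) ≤ ((n : ℝ) - 4) / 2 := by linarith
    have hcont : ContinuousOn (fun x : ℝ => (1 - x ^ 2) ^ (((n : ℝ) - 4) / 2)) (Icc 0 1) := by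
      apply ContinuousOn.rpow_const
      · fun_prop
      · intro x _
        exact Or.inr he
    have hint : IntervalIntegrable (fun x : ℝ => (1 - x ^ 2) ^ (((n : ℝ) - 4) / 2)) volume 0 1 := by
      apply ContinuousOn.intervalIntegrable
      rw [uIcc_of_le zero_le_one]
      exact hcont
    apply intervalIntegral.intervalIntegral_pos_of_pos_on hint _ zero_lt_one
    intro x hx
    apply Real.rpow_pos_of_pos
    have h1 := hx.1
    have h2' := hx.2
    nlinarith

end Pool.Agent.REV.H80
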