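import Pool.Agent.REV.StmtsU2

set_option autoImplicit false

namespace Pool.Agent.REV.H80

open Set MeasureTheory

/-- Bernoulli from above. -/
theorem one_add_pow_le {x : ℝ} (hx0 : 0 ≤ x) (hx1 : x ≤ 1) (m : ℕ) :
    (1 + x) ^ m ≤ 1 + (2 ^ m - 1) * x := by
  induction m with
  | zero => simp
  | succ m ih =>
    have h2 : (1 : ℝ) ≤ 2 ^ m := one_le_pow₀ (by norm_num)
    calc (1 + x) ^ (m + 1) = (1 + x) ^ m * (1 + x) := pow_succ _ _
      _ ≤ (1 + (2 ^ m - 1) * x) * (1 + x) := mul_le_mul_of_nonneg_right ih (by linarith)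
      _ ≤ 1 + (2 ^ (m + 1) - 1) * x := by
        rw [pow_succ]
        nlinarith [mul_nonneg (by linarith : (0 : ℝ) ≤ 2 ^ m - 1) (mul_nonneg hx0 (by linarith : 0 ≤ 1 - x))]

/-- `c^3 RB` is nondecreasing on `(0,1]`. -/
theorem cube_mono (hCRA : CraStmt) {n : ℕ} (hn : 4 ≤ n) {f : ℝ → ℝ}
    (hf : ContinuousOn f (Icc 0 1)) (hpos : ∀ t ∈ Icc (0 : ℝ) 1, 0 < f t)
    {c c' : ℝ} (hc' : 0 < c') (hcc : c' ≤ c) (hc : c ≤ 1) :
    c' ^ 3 * RB n f c' ≤ c ^ 3 * RB n f c := by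
  have hn' : (4 : ℝ) ≤ n := by exact_mod_cast hn
  have hγ : (0 : ℝ) ≤ ((n : ℝ) - 4) / 2 := by linarith
  have hcont := H63.clf_cont hf
  have hbdd := H63.clf_bdd hf
  have hc0 : 0 < c := hc'.trans_le hcc
  rw [← H63.RB_clf (f := f) ⟨hc'.le, hcc.trans hc⟩, ← H63.RB_clf (f := f) ⟨hc0.le, hc⟩]
  rw [(hCRA n (clf f) c' 1 hn hcont.measurable hbdd hc' (hcc.trans hc)).2,
    (hCRA n (clf f) c 1 hn hcont.measurable hbdd hc0 hc).2]
  obtain ⟨M, hM⟩ := hbdd
  have hnn : ∀ s, 0 ≤ clf f s := fun s => (hpos _ (H63.clf_mem s)).le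
  have hint : ∀ a : ℝ, 0 < a → IntervalIntegrable (fun s : ℝ =>
      (if s < a then s ^ 2 * (1 - s ^ 2 / a ^ 2) ^ (((n : ℝ) - 4) / 2) else 0) * clf f s)
      volume 0 1 := by
    intro a ha
    rw [intervalIntegrable_iff_integrableOn_Ioc_of_le zero_le_one]
    apply Measure.integrableOn_of_bounded (M := 1 * M)
    · simp
    · apply Measurable.aestronglyMeasurable
      apply Measurable.mul _ hcont.measurable
      apply Measurable.ite measurableSet_Iio _ measurable_const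
      apply Measurable.mul
      · fun_prop
      · apply Measurable.pow_const
        fun_prop
    · filter_upwards [ae_restrict_mem measurableSet_Ioc] with s hs
      rw [norm_mul]
      have h1 : ‖(if s < a then s ^ 2 * (1 - s ^ 2 / a ^ 2) ^ (((n : ℝ) - 4) / 2) else 0 : ℝ)‖ ≤
          1 := by
        split_ifs with hsa
        · have hs0 := hs.1
          have hs1 := hs.2
          have h2 : s ^ 2 / a ^ 2 ≤ 1 := by
            rw [div_le_one (by positivity)]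
            exact pow_le_pow_left₀ hs0.le hsa.le 2
          have h3 : 0 ≤ s ^ 2 / a ^ 2 := by positivity
          have h4 : (1 - s ^ 2 / a ^ 2) ^ (((n : ℝ) - 4) / 2) ≤ 1 :=
            Real.rpow_le_one (by linarith) (by linarith) hγ
          have h5 : 0 ≤ (1 - s ^ 2 / a ^ 2) ^ (((n : ℝ) - 4) / 2) :=
            Real.rpow_nonneg (by linarith) _
          rw [Real.norm_eq_abs, abs_of_nonneg (mul_nonneg (sq_nonneg _) h5)]
          have h6 : s ^ 2 ≤ 1 := by nlinarith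
          exact mul_le_one₀ h6 h5 h4
        · simp
      exact mul_le_mul h1 (by rw [Real.norm_eq_abs]; exact hM s) (norm_nonneg _) zero_le_one
  apply intervalIntegral.integral_mono_on zero_le_one (hint c' hc') (hint c hc0)
  intro s hs
  apply mul_le_mul_of_nonneg_right _ (hnn s)
  by_cases h1 : s < c'
  · have h2 : s < c := h1.trans_le hcc
    rw [if_pos h1, if_pos h2]
    apply mul_le_mul_of_nonneg_left _ (sq_nonneg _)
    apply Real.rpow_le_rpow
    · have : s ^ 2 / c' ^ 2 ≤ 1 := by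
        rw [div_le_one (by positivity)]
        exact pow_le_pow_left₀ hs.1 h1.le 2
      linarith
    · have : s ^ 2 / c ^ 2 ≤ s ^ 2 / c' ^ 2 := by
        apply div_le_div_of_nonneg_left (sq_nonneg _) (by positivity)
        exact pow_le_pow_left₀ hc'.le hcc 2
      linarith
    · exact hγ
  · rw [if_neg h1]
    split_ifs with h2
    · apply mul_nonneg (sq_nonneg _)
      apply Real.rpow_nonneg
      have : s ^ 2 / c ^ 2 ≤ 1 := by
        rw [div_le_one (by positivity)]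
        exact pow_le_pow_left₀ hs.1 h2.le 2
      linarith
    · exact le_refl _

/-- `c RA` grows at least linearly. -/
theorem lin_grow (hYDR : YdrStmt) {n : ℕ} (hn : 4 ≤ n) {f : ℝ → ℝ}
    (hf : ContinuousOn f (Icc 0 1)) {h : ℝ} (hh : 0 < h)
    (hB : ∀ c ∈ Icc (0 : ℝ) 1, h ≤ RB n f c)
    {c c' : ℝ} (hc' : 0 < c') (hcc : c' ≤ c) (hc : c ≤ 1) :
    c' * RA n f c' + h * (c - c') ≤ c * RA n f c := by
  have hn' : (4 : ℝ) ≤ n := by exact_mod_cast hn
  have hcont := H63.clf_cont hf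
  have hbdd := H63.clf_bdd hf
  have hd : ∀ u ∈ Icc c' c, HasDerivAt (fun u => u * RA n (clf f) u - h * u)
      (((n : ℝ) - 2) * RB n (clf f) u - h * 1) u := by
    intro u hu
    exact (hYDR n (clf f) u hn hcont.measurable hbdd (hc'.trans_le hu.1)).sub
      ((hasDerivAt_id u).const_mul h)
  have hmono : MonotoneOn (fun u => u * RA n (clf f) u - h * u) (Icc c' c) := by
    apply monotoneOn_of_deriv_nonneg (convex_Icc c' c)
    · intro u hu
      exact (hd u hu).continuousAt.continuousWithinAt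
    · intro u hu
      rw [interior_Icc] at hu
      exact (hd u (Ioo_subset_Icc_self hu)).differentiableAt.differentiableWithinAt
    · intro u hu
      rw [interior_Icc] at hu
      rw [(hd u (Ioo_subset_Icc_self hu)).deriv]
      have hu1 : u ∈ Icc (0 : ℝ) 1 := ⟨(hc'.trans hu.1).le, hu.2.le.trans hc⟩
      rw [H63.RB_clf hu1]
      have := hB u hu1
      nlinarith
  have hm := hmono (left_mem_Icc.2 hcc) (right_mem_Icc.2 hcc) hcc
  simp only at hm
  rw [H63.RA_clf (f := f) ⟨hc'.le, hcc.trans hc⟩,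
    H63.RA_clf (f := f) ⟨(hc'.trans_le hcc).le, hc⟩] at hm
  linarith

/-- FAR: comparison away from the pole. -/
theorem far (hYDR : YdrStmt) (hRCT : RctStmt) (hRPO : RpoStmt) (hCRA : CraStmt) : FarStmt := by
  intro n C c0 f hn hF hC hc0 hc01
  have hn' : (4 : ℝ) ≤ n := by exact_mod_cast hn
  have hcont := hF.cont
  have hpos := hF.pos
  -- bounds
  obtain ⟨M, hM⟩ : ∃ M, ∀ t ∈ Icc (0 : ℝ) 1, f t ≤ M := by
    obtain ⟨M, hM⟩ := isCompact_Icc.exists_bound_of_continuousOn hcont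
    exact ⟨M, fun t ht => (le_abs_self _).trans (hM t ht)⟩
  have hM0 : 0 < M := (hpos 0 ⟨le_refl _, zero_le_one⟩).trans_le (hM 0 ⟨le_refl _, zero_le_one⟩)
  have hP := hRPO n f M hn hcont fun t ht => ⟨hpos t ht, hM t ht⟩
  obtain ⟨hcA, hcB⟩ := (hRCT n f hn).2 hcont
  obtain ⟨h, hh, hB⟩ : ∃ h : ℝ, 0 < h ∧ ∀ c ∈ Icc (0 : ℝ) 1, h ≤ RB n f c := by
    obtain ⟨x, hx, hmin⟩ := isCompact_Icc.exists_isMinOn (nonempty_Icc.2 zero_le_one) hcB
    exact ⟨RB n f x, (hP x hx).2.1, fun c hc => hmin hc⟩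
  set η : ℝ := h / M with hη
  have hη0 : 0 < η := div_pos hh hM0
  -- the function `F`
  have hFeq : ∀ c ∈ Icc (0 : ℝ) 1, c ^ (n + 1) * f (Real.sqrt (1 - c ^ 2)) =
      C * ((c ^ 3 * RB n f c) * (c * RA n f c) ^ (n - 2)) := by
    intro c hc
    have hc2 : 0 ≤ 1 - c ^ 2 := by nlinarith [hc.1, hc.2]
    have ht : Real.sqrt (1 - c ^ 2) ∈ Icc (0 : ℝ) 1 := by
      refine ⟨Real.sqrt_nonneg _, ?_⟩
      rw [Real.sqrt_le_one]
      nlinarith [sq_nonneg c]
    have e1 : Real.sqrt (1 - Real.sqrt (1 - c ^ 2) ^ 2) = c := by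
      rw [Real.sq_sqrt hc2, sub_sub_cancel, Real.sqrt_sq hc.1]
    rw [hF.eq _ ht, e1, mul_pow]
    have e2 : n + 1 = 3 + (n - 2) := by omega
    rw [e2, pow_add]
    ring
  have hgrow : ∀ c c' : ℝ, 0 < c' → c' ≤ c → c ≤ 1 →
      c' ^ (n + 1) * f (Real.sqrt (1 - c' ^ 2)) * (1 + η * (c - c')) ≤
        c ^ (n + 1) * f (Real.sqrt (1 - c ^ 2)) := by
    intro c c' hc' hcc hc
    have hm' : c' ∈ Icc (0 : ℝ) 1 := ⟨hc'.le, hcc.trans hc⟩
    have hm : c ∈ Icc (0 : ℝ) 1 := ⟨(hc'.trans_le hcc).le, hc⟩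
    rw [hFeq c' hm', hFeq c hm]
    have h1 := cube_mono hCRA hn hcont hpos hc' hcc hc
    have h2 := lin_grow hYDR hn hcont hh hB hc' hcc hc
    have hs : 0 ≤ c - c' := sub_nonneg.2 hcc
    have hY0 : 0 < c' * RA n f c' := mul_pos hc' (hP c' hm').1
    have hYM : c' * RA n f c' ≤ M := by
      have := (hP c' hm').2.2.1
      nlinarith [hm'.2, (hP c' hm').1]
    have h3 : c' * RA n f c' * (1 + η * (c - c')) ≤ c * RA n f c := by
      refine le_trans ?_ h2
      have h4 : η * (c' * RA n f c') ≤ h := by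
        rw [hη, div_mul_eq_mul_div, div_le_iff₀ hM0]
        exact mul_le_mul_of_nonneg_left hYM hh.le
      nlinarith [mul_le_mul_of_nonneg_right h4 hs]
    have hηs : 0 ≤ η * (c - c') := mul_nonneg hη0.le hs
    have h5 : (c' * RA n f c') ^ (n - 2) * (1 + η * (c - c')) ≤ (c * RA n f c) ^ (n - 2) := by
      calc (c' * RA n f c') ^ (n - 2) * (1 + η * (c - c'))
          ≤ (c' * RA n f c') ^ (n - 2) * (1 + η * (c - c')) ^ (n - 2) := by
            apply mul_le_mul_of_nonneg_left _ (pow_nonneg hY0.le _)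
            exact le_self_pow₀ (by linarith) (by omega)
        _ = (c' * RA n f c' * (1 + η * (c - c'))) ^ (n - 2) := (mul_pow _ _ _).symm
        _ ≤ _ := pow_le_pow_left₀ (mul_nonneg hY0.le (by linarith)) h3 _
    have hZ0 : 0 ≤ c' ^ 3 * RB n f c' := mul_nonneg (by positivity) (hP c' hm').2.1.le
    have hYc : 0 ≤ (c * RA n f c) ^ (n - 2) :=
      pow_nonneg (mul_nonneg hm.1 (hP c hm).1.le) _
    calc C * ((c' ^ 3 * RB n f c') * (c' * RA n f c') ^ (n - 2)) * (1 + η * (c - c'))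
        = C * ((c' ^ 3 * RB n f c') * ((c' * RA n f c') ^ (n - 2) * (1 + η * (c - c')))) := by
          ring
      _ ≤ C * ((c' ^ 3 * RB n f c') * (c * RA n f c) ^ (n - 2)) :=
          mul_le_mul_of_nonneg_left (mul_le_mul_of_nonneg_left h5 hZ0) hC.le
      _ ≤ C * ((c ^ 3 * RB n f c) * (c * RA n f c) ^ (n - 2)) :=
          mul_le_mul_of_nonneg_left (mul_le_mul_of_nonneg_right h1 hYc) hC.le
  -- the constant
  have hc04 : 0 < c0 ^ 4 := by positivity
  have hc041 : c0 ^ 4 ≤ 1 := pow_le_one₀ hc0.le hc01.le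
  have h2n : (0 : ℝ) < 2 ^ (n + 1) := by positivity
  refine ⟨c0 ^ 4 / 2 * min 1 (η / 2 ^ (n + 1)), ?_, ?_, ?_⟩
  · have : 0 < min 1 (η / 2 ^ (n + 1)) := lt_min one_pos (div_pos hη0 h2n)
    positivity
  · have h1 : min 1 (η / 2 ^ (n + 1)) ≤ 1 := min_le_left _ _
    have h0 : 0 ≤ min 1 (η / 2 ^ (n + 1)) := (lt_min one_pos (div_pos hη0 h2n)).le
    nlinarith
  intro b hb hb1
  have hm1 : min 1 (η / 2 ^ (n + 1)) ≤ 1 := min_le_left _ _
  have hm0 : 0 ≤ min 1 (η / 2 ^ (n + 1)) := (lt_min one_pos (div_pos hη0 h2n)).le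
  have hb1' : b ≤ 1 := by nlinarith
  set β : ℝ := 2 * b / c0 ^ 4 with hβ
  have hβ0 : 0 < β := by positivity
  have hβm : β ≤ min 1 (η / 2 ^ (n + 1)) := by
    rw [hβ, div_le_iff₀ hc04]
    linarith
  have hβ1 : β ≤ 1 := hβm.trans hm1
  have hβη : 2 ^ (n + 1) * β ≤ η := by
    have := hβm.trans (min_le_right _ _)
    rw [le_div_iff₀ h2n] at this
    linarith
  intro t1 ht1 t2 ht2 h12
  -- the two heights
  have hs0 : (0 : ℝ) ≤ 1 - c0 ^ 2 := by nlinarith
  have key : ∀ t ∈ Icc (0 : ℝ) (Real.sqrt (1 - c0 ^ 2)), t ^ 2 ≤ 1 - c0 ^ 2 := by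
    intro t ht
    have := pow_le_pow_left₀ ht.1 ht.2 2
    rwa [Real.sq_sqrt hs0] at this
  have k1 := key t1 ht1
  have k2 := key t2 ht2
  have k12 : t1 ^ 2 ≤ t2 ^ 2 := pow_le_pow_left₀ ht1.1 h12 2
  set c : ℝ := Real.sqrt (1 - t1 ^ 2) with hc
  set c' : ℝ := Real.sqrt (1 - t2 ^ 2) with hc'
  have hcsq : c ^ 2 = 1 - t1 ^ 2 := Real.sq_sqrt (by nlinarith [sq_nonneg c0])
  have hcsq' : c' ^ 2 = 1 - t2 ^ 2 := Real.sq_sqrt (by nlinarith [sq_nonneg c0])
  have hcc : c' ≤ c := Real.sqrt_le_sqrt (by linarith)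
  have hc1 : c ≤ 1 := by
    rw [hc, Real.sqrt_le_one]
    nlinarith [sq_nonneg t1]
  have hc0' : c0 ≤ c' := by
    rw [hc']
    apply Real.le_sqrt_of_sq_le
    linarith
  have hcp' : 0 < c' := hc0.trans_le hc0'
  have hcp : 0 < c := hcp'.trans_le hcc
  have et1 : t1 = Real.sqrt (1 - c ^ 2) := by
    rw [hcsq, sub_sub_cancel, Real.sqrt_sq ht1.1]
  have et2 : t2 = Real.sqrt (1 - c' ^ 2) := by
    rw [hcsq', sub_sub_cancel, Real.sqrt_sq ht2.1]
  -- `El` in terms of `u`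
  have hEl : ∀ x t : ℝ, 0 < x → x ^ 2 = 1 - t ^ 2 → El n b f t =
      ((1 - b) + b / x ^ 2) ^ (((n : ℝ) + 1) / 2) * (x ^ (n + 1) * f t) := by
    intro x t hx hxt
    unfold El
    have e1 : 1 + (b - 1) * t ^ 2 = ((1 - b) + b / x ^ 2) * x ^ 2 := by
      rw [add_mul, div_mul_cancel₀ _ (by positivity : x ^ 2 ≠ 0), hxt]
      ring
    have hu : 0 ≤ (1 - b) + b / x ^ 2 := by
      have : 0 < b / x ^ 2 := by positivity
      linarith
    rw [e1, Real.mul_rpow hu (by positivity), mul_assoc]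
    congr 1
    have e2 : (x ^ 2) ^ (((n : ℝ) + 1) / 2) = x ^ (n + 1) := by
      rw [← Real.rpow_natCast x 2, ← Real.rpow_mul hx.le, ← Real.rpow_natCast x (n + 1)]
      congr 1
      push_cast
      ring
    rw [e2]
  rw [hEl c' t2 hcp' hcsq', hEl c t1 hcp hcsq]
  have hg := hgrow c c' hcp' hcc hc1
  rw [← et1, ← et2] at hg
  have hs : 0 ≤ c - c' := sub_nonneg.2 hcc
  have hs1 : c - c' ≤ 1 := by linarith
  have hN : (0 : ℝ) ≤ ((n : ℝ) + 1) / 2 := by positivity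
  -- the quotient of the `u`
  have hu1 : 1 ≤ (1 - b) + b / c ^ 2 := by
    have h1 : b ≤ b / c ^ 2 := by
      rw [le_div_iff₀ (by positivity)]
      nlinarith
    linarith
  have hu2 : (1 - b) + b / c' ^ 2 ≤ ((1 - b) + b / c ^ 2) * (1 + β * (c - c')) := by
    have h1 : b / c' ^ 2 - b / c ^ 2 ≤ β * (c - c') := by
      have e1 : b / c' ^ 2 - b / c ^ 2 = b * (c - c') * (c + c') / (c ^ 2 * c' ^ 2) := by
        field_simp
        ring
      rw [e1, div_le_iff₀ (by positivity)]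
      have h2 : c0 ^ 4 ≤ c ^ 2 * c' ^ 2 := by
        have h3 : c0 ^ 2 ≤ c ^ 2 := pow_le_pow_left₀ hc0.le (hc0'.trans hcc) 2
        have h4 : c0 ^ 2 ≤ c' ^ 2 := pow_le_pow_left₀ hc0.le hc0' 2
        calc c0 ^ 4 = c0 ^ 2 * c0 ^ 2 := by ring
          _ ≤ c ^ 2 * c' ^ 2 := mul_le_mul h3 h4 (by positivity) (by positivity)
      have h5 : β * c0 ^ 4 = 2 * b := by
        rw [hβ, div_mul_cancel₀ _ hc04.ne']
      have h6 : 0 ≤ β * (c - c') := mul_nonneg hβ0.le hs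
      calc b * (c - c') * (c + c') ≤ b * (c - c') * 2 := by
            apply mul_le_mul_of_nonneg_left _ (mul_nonneg hb.le hs)
            linarith
        _ = β * (c - c') * c0 ^ 4 := by
            have h9 : β * (c - c') * c0 ^ 4 = (β * c0 ^ 4) * (c - c') := by ring
            rw [h9, h5]
            ring
        _ ≤ β * (c - c') * (c ^ 2 * c' ^ 2) := mul_le_mul_of_nonneg_left h2 h6
    have h7 : 0 ≤ β * (c - c') := mul_nonneg hβ0.le hs
    nlinarith [mul_le_mul_of_nonneg_right hu1 h7]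
  have hβs0 : 0 ≤ β * (c - c') := mul_nonneg hβ0.le hs
  have hβs1 : β * (c - c') ≤ 1 := by nlinarith
  have hq : (1 + β * (c - c')) ^ (((n : ℝ) + 1) / 2) ≤ 1 + η * (c - c') := by
    calc (1 + β * (c - c')) ^ (((n : ℝ) + 1) / 2)
        ≤ (1 + β * (c - c')) ^ (((n + 1 : ℕ) : ℝ)) := by
          apply Real.rpow_le_rpow_of_exponent_le (by linarith)
          push_cast
          linarith
      _ = (1 + β * (c - c')) ^ (n + 1) := Real.rpow_natCast _ _
      _ ≤ 1 + (2 ^ (n + 1) - 1) * (β * (c - c')) := one_add_pow_le hβs0 hβs1 _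
      _ ≤ 1 + η * (c - c') := by
          have h8 := mul_le_mul_of_nonneg_right hβη hs
          nlinarith
  have hf2 : 0 ≤ c' ^ (n + 1) * f t2 := by
    have ht2' : t2 ∈ Icc (0 : ℝ) 1 := by
      refine ⟨ht2.1, ht2.2.trans ?_⟩
      rw [Real.sqrt_le_one]
      nlinarith [sq_nonneg c0]
    exact mul_nonneg (by positivity) (hpos t2 ht2').le
  have hu10 : 0 ≤ ((1 - b) + b / c ^ 2) ^ (((n : ℝ) + 1) / 2) :=
    Real.rpow_nonneg (by linarith) _
  calc ((1 - b) + b / c' ^ 2) ^ (((n : ℝ) + 1) / 2) * (c' ^ (n + 1) * f t2)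
      ≤ (((1 - b) + b / c ^ 2) * (1 + β * (c - c'))) ^ (((n : ℝ) + 1) / 2) *
        (c' ^ (n + 1) * f t2) := by
        apply mul_le_mul_of_nonneg_right _ hf2
        apply Real.rpow_le_rpow _ hu2 hN
        have : 0 < b / c' ^ 2 := by positivity
        linarith
    _ = ((1 - b) + b / c ^ 2) ^ (((n : ℝ) + 1) / 2) *
        ((c' ^ (n + 1) * f t2) * (1 + β * (c - c')) ^ (((n : ℝ) + 1) / 2)) := by
        rw [Real.mul_rpow (by linarith) (by linarith)]
        ring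
    _ ≤ ((1 - b) + b / c ^ 2) ^ (((n : ℝ) + 1) / 2) *
        ((c' ^ (n + 1) * f t2) * (1 + η * (c - c'))) :=
        mul_le_mul_of_nonneg_left (mul_le_mul_of_nonneg_left hq hf2) hu10
    _ ≤ ((1 - b) + b / c ^ 2) ^ (((n : ℝ) + 1) / 2) * (c ^ (n + 1) * f t1) :=
        mul_le_mul_of_nonneg_left hg hu10

end Pool.Agent.REV.H80
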