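import Pool.Agent.REV.StmtsG4
import Pool.Agent.Helper11_REV.G2Z

set_option autoImplicit false

/-! Row G2Z3 of squad REV (MP_bbfd73_gt): the interface for `n ≥ 3`. -/

open MeasureTheory Module Set Filter
open scoped RealInnerProductSpace Pointwise Topology ENNReal

namespace Pool.Agent.REV.H80

open Pool.Agent.BPH Pool.Agent.REV Pool.Agent.REV.H11

theorem g2z3 (zst : Zst3Stmt) (cpo : Cpo3Stmt) : G2z3Stmt := by
  intro E _ _ _ _ _ i hi1 hi2 h4
  obtain ⟨c, hc, H⟩ := zst E i h4 hi1 hi2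
  obtain ⟨p1, p2, p3, -⟩ := cpo (finrank ℝ E) i h4 hi1 hi2
  refine ⟨c * C1 (finrank ℝ E) i, c * C2 (finrank ℝ E) i, mul_nonneg hc.le p2, mul_pos hc p3,
    fun h => mul_pos hc (p1 h), ?_⟩
  intro e he f hf
  have hf' : Dens (zon e (cut f)) := by
    rw [zon_cut]
    exact hf
  obtain ⟨-, -, H2, H3⟩ := H e (cut f) he (prf_cut e he f hf) hf'
  have hfun : (fun t => c / ZZ i (zon e (cut f)) *
      TT (finrank ℝ E) i (C1 (finrank ℝ E) i) (C2 (finrank ℝ E) i) (cut f) t) =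
      fun t => (ZZ i (zon e f))⁻¹ * TT (finrank ℝ E) i (c * C1 (finrank ℝ E) i)
        (c * C2 (finrank ℝ E) i) f t := by
    funext t
    rw [zon_cut]
    exact TT_cut _ _ _ _ _ _ _ _
  rw [hfun] at H2 H3
  rw [zon_cut] at H3
  exact ⟨H2, H3⟩

end Pool.Agent.REV.H80
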